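import Pool.Agent.H21.Merge

set_option autoImplicit false

namespace Pool.Agent.Results.MP_daa8b9_co.NotDivisible
open Finset Pool.Agent.H21.Merge

/-- the number of classes of the equivalence relation generated by `r` -/
noncomputable def ncl {D : Type} (r : D → D → Prop) : ℕ := Nat.card (Quot r)

/-- The darts (half-edges) of a graph with `m` edges: an edge together with one of its two ends. -/
abbrev Dart (m : ℕ) := Fin m × Bool

/-- the other dart of the same edge -/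
def opp {m : ℕ} (d : Dart m) : Dart m := (d.1, !d.2)

/-- A rotation system `σ` (the cyclic successor of each dart around its vertex) describes a
connected plane graph with all degrees 3: all cycles of `σ` (the vertices) have length 3, the map
is connected, and Euler's formula `V - E + F = 2` holds, the faces being the cycles of
`d ↦ σ (opp d)`. -/
def IsPlaneCubic {m : ℕ} (σ : Equiv.Perm (Dart m)) : Prop :=
  (∀ d, σ d ≠ d ∧ σ (σ (σ d)) = d) ∧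
  ncl (fun d e : Dart m => e = σ d ∨ e = opp d) = 1 ∧
  ncl (fun d e : Dart m => e = σ d) + ncl (fun d e : Dart m => e = σ (opp d)) = m + 2

/-- a 3-edge-colouring: two different edges with darts at a common vertex get different colours -/
def IsColouring {m : ℕ} (σ : Equiv.Perm (Dart m)) (c : Fin m → Fin 3) : Prop :=
  ∀ d e : Dart m, σ.SameCycle d e → d.1 ≠ e.1 → c d.1 ≠ c e.1

/-- The edges of the medial graph are the corners of the map; the dart `x` names the corner between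
`x` and `σ x`. At the medial vertex on the edge with darts `d`, `opp d` the four corners are
`d`, `σ⁻¹ d`, `opp d`, `σ⁻¹ (opp d)`. The state `s` chooses white (`false`), which pairs `d` with
`σ⁻¹ (opp d)` (consecutive corners of a face), or crossing (`true`), which pairs `d` with `opp d`
and `σ⁻¹ d` with `σ⁻¹ (opp d)`. `link σ s x y` says that `x` is paired with `y`. -/
def link {m : ℕ} (σ : Equiv.Perm (Dart m)) (s : Fin m → Bool) (x y : Dart m) : Prop :=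
  ∃ d : Dart m, (s d.1 = false ∧ x = d ∧ y = σ⁻¹ (opp d)) ∨
    (s d.1 = true ∧ ((x = d ∧ y = opp d) ∨ (x = σ⁻¹ d ∧ y = σ⁻¹ (opp d))))

/-- the Penrose polynomial evaluated at `t`: the sum over states of
`(-1)^(number of crossings) * t^(number of closed curves)` -/
noncomputable def penrose {m : ℕ} (σ : Equiv.Perm (Dart m)) (t : ℤ) : ℤ :=
  ∑ s : Fin m → Bool, (-1) ^ (univ.filter fun e => s e = true).card * t ^ ncl (link σ s)

def dec (n : ℕ) : Dart 21 := (Fin.ofNat 21 (n / 2), n % 2 == 1)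
def num (d : Dart 21) : ℕ := 2 * d.1.1 + d.2.toNat

def σ : Equiv.Perm (Dart 21) where
  toFun d := dec ([14, 5, 1, 9, 11, 2, 25, 4, 6, 18, 12, 7, 17, 0, 13, 20, 38, 10, 3, 30, 22, 19, 15, 32, 26, 8, 29, 16, 36, 24, 21, 34, 40, 31, 33, 28, 35, 39, 27, 41, 23, 37].getD (num d) 0)
  invFun d := dec ([13, 2, 5, 18, 7, 1, 8, 11, 25, 3, 17, 4, 10, 14, 0, 22, 27, 12, 9, 21, 15, 30, 20, 40, 29, 6, 24, 38, 35, 26, 19, 33, 23, 34, 31, 36, 28, 41, 16, 37, 32, 39].getD (num d) 0)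
  left_inv := by decide +kernel
  right_inv := by decide +kernel

def enc (d : Dart 21) : ℕ := [10, 1, 0, 4, 6, 2, 20, 3, 5, 14, 8, 7, 12, 9, 11, 16, 35, 13, 15, 26, 18, 17, 19, 28, 22, 21, 24, 23, 33, 25, 27, 30, 38, 29, 31, 32, 34, 36, 37, 39, 40, 41].getD (num d) 0

theorem enc_inj : Function.Injective (toF 0 (List.range 42) ∘ enc) := by decide +kernel

theorem ncl_eq (r : Dart 21 → Dart 21 → Prop) (L : List (Dart 21 × Dart 21))
    (h : ∀ x y, r x y ↔ (x, y) ∈ L) :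
    ncl r + (runL 0 (mp enc L) (List.range 42) 0).2 = 42 := by
  have h1 := card_quot' r L _ enc_inj h
  rw [(app_comp enc L _).2] at h1
  have hb : ∀ d, enc d ∈ Set.Ico 0 42 := by
    simp only [Set.mem_Ico]; decide +kernel
  rw [(runL_spec 0 42 (mp enc L) (by
    intro p hp
    obtain ⟨q, -, rfl⟩ := List.mem_map.1 hp
    exact ⟨hb _, hb _⟩) (List.range 42) 0 (by simp)).2.1, zero_add]
  exact h1

def darts : List (Dart 21) := (List.range 42).map dec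

theorem mem_darts : ∀ d, d ∈ darts := by decide +kernel

theorem plane : IsPlaneCubic σ := by
  have h1 := ncl_eq (fun d e => e = σ d ∨ e = opp d)
    (darts.map (fun d => (d, σ d)) ++ darts.map (fun d => (d, opp d))) (by
      intro x y; simp [mem_darts, eq_comm])
  have h2 := ncl_eq (fun d e => e = σ d) (darts.map (fun d => (d, σ d))) (by
      intro x y; simp [mem_darts, eq_comm])
  have h3 := ncl_eq (fun d e => e = σ (opp d)) (darts.map (fun d => (d, σ (opp d)))) (by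
      intro x y; simp [mem_darts, eq_comm])
  rw [show (runL 0 (mp enc _) (List.range 42) 0).2 = 41 by decide +kernel] at h1
  rw [show (runL 0 (mp enc _) (List.range 42) 0).2 = 28 by decide +kernel] at h2
  rw [show (runL 0 (mp enc _) (List.range 42) 0).2 = 33 by decide +kernel] at h3
  exact ⟨by decide +kernel, by omega, by omega⟩

def es (e : Fin 21) : List (Dart 21 × Dart 21) × List (Dart 21 × Dart 21) :=
  ([((e, false), σ⁻¹ (e, true)), ((e, true), σ⁻¹ (e, false))],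
   [((e, false), (e, true)), (σ⁻¹ (e, false), σ⁻¹ (e, true)),
    ((e, true), (e, false)), (σ⁻¹ (e, true), σ⁻¹ (e, false))])

def ES : List ((List (ℕ × ℕ) × List (ℕ × ℕ)) × ℕ) :=
  [(([(10, 0), (1, 9)], [(10, 1), (9, 0), (1, 10), (0, 9)]), 0),
    (([(0, 15), (4, 2)], [(0, 4), (2, 15), (4, 0), (15, 2)]), 1),
    (([(6, 1), (2, 3)], [(6, 2), (3, 1), (2, 6), (1, 3)]), 2),
    (([(20, 7), (3, 5)], [(20, 3), (5, 7), (3, 20), (7, 5)]), 1),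
    (([(5, 4), (14, 21)], [(5, 14), (21, 4), (14, 5), (4, 21)]), 2),
    (([(8, 6), (7, 13)], [(8, 7), (13, 6), (7, 8), (6, 13)]), 2),
    (([(12, 11), (9, 8)], [(12, 9), (8, 11), (9, 12), (11, 8)]), 2),
    (([(11, 19), (16, 10)], [(11, 16), (10, 19), (16, 11), (19, 10)]), 2),
    (([(35, 12), (13, 23)], [(35, 13), (23, 12), (13, 35), (12, 23)]), 2),
    (([(15, 17), (26, 14)], [(15, 26), (14, 17), (26, 15), (17, 14)]), 2),
    (([(18, 27), (17, 16)], [(18, 17), (16, 27), (17, 18), (27, 16)]), 2),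
    (([(19, 40), (28, 18)], [(19, 28), (18, 40), (28, 19), (40, 18)]), 2),
    (([(22, 20), (21, 25)], [(22, 21), (25, 20), (21, 22), (20, 25)]), 2),
    (([(24, 37), (23, 22)], [(24, 23), (22, 37), (23, 24), (37, 22)]), 2),
    (([(33, 24), (25, 32)], [(33, 25), (32, 24), (25, 33), (24, 32)]), 2),
    (([(27, 29), (30, 26)], [(27, 30), (26, 29), (30, 27), (29, 26)]), 2),
    (([(38, 31), (29, 28)], [(38, 29), (28, 31), (29, 38), (31, 28)]), 2),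
    (([(31, 34), (32, 30)], [(31, 32), (30, 34), (32, 31), (34, 30)]), 3),
    (([(34, 41), (36, 33)], [(34, 36), (33, 41), (36, 34), (41, 33)]), 2),
    (([(37, 36), (39, 35)], [(37, 39), (35, 36), (39, 37), (36, 35)]), 3),
    (([(40, 39), (41, 38)], [(40, 41), (38, 39), (41, 40), (39, 38)]), 4)]

theorem ES_eq : (List.ofFn es).map (fun e => (mp enc e.1, mp enc e.2)) = ES.map Prod.fst := by
  decide +kernel

theorem dp_eq : dp ES 0 [(List.range 42, 1)] = -78966 := by decide +kernel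

theorem W_eq (N : ℕ) (E : List ((List (ℕ × ℕ) × List (ℕ × ℕ)) × ℕ)) (l : List ℕ)
    (hG : Good N E 0) (hl : l.length = N) :
    W (toF 0 l) (E.map Prod.fst) = dp E 0 [(l, 1)] := by
  rw [dp_spec N E 0 [(l, 1)] hG (by simpa using hl)]
  simp [Pool.Agent.H21.Merge.val]

theorem W_val : W (toF 0 (List.range 42)) (ES.map Prod.fst) = -78966 :=
  (W_eq 42 ES _ (by decide +kernel) (by simp)).trans dp_eq

theorem sum_val : ∑ s : Fin 21 → Bool, (∏ e, if s e then (-1 : ℤ) else 1) *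
    (-1) ^ mer (toF 0 (List.range 42) ∘ enc)
      (List.ofFn fun e => if s e then (es e).2 else (es e).1).flatten = -78966 :=
  (sum_states es _).trans ((W_comp enc _ _).trans ((congrArg _ ES_eq).trans W_val))

theorem penrose_eq : penrose σ (-1) = -78966 := by
  refine Eq.trans ?_ sum_val
  rw [penrose]
  apply Finset.sum_congr rfl
  intro s _
  have h2 := card_quot' (link σ s)
    (List.ofFn fun e => if s e then (es e).2 else (es e).1).flatten _ enc_inj (by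
      intro x y
      simp only [link, List.mem_flatten, List.mem_ofFn', Set.mem_range, exists_exists_eq_and,
        Prod.exists, Bool.exists_bool]
      apply exists_congr
      intro e
      cases s e <;> simp [es, opp] <;> tauto)
  rw [show Fintype.card (Dart 21) = 42 by simp] at h2
  rw [Finset.prod_ite, Finset.prod_const_one, mul_one, Finset.prod_const]
  congr 1
  rw [ncl]
  generalize Nat.card (Quot (link σ s)) = a at *
  generalize mer _ _ = b at *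
  have h3 : (-1 : ℤ) ^ a * (-1) ^ b = 1 := by rw [← pow_add, h2]; norm_num
  rcases neg_one_pow_eq_or ℤ a with h | h <;> rcases neg_one_pow_eq_or ℤ b with h' | h' <;>
    simp_all

def con : List (List ℕ) := [[], [0], [0, 1], [2], [1, 3], [2, 3], [0, 5], [0, 6], [5, 6], [1, 4], [7, 9], [7, 10], [3, 4], [8, 12], [12, 13], [9, 10], [11, 15], [14, 15, 16], [14, 17], [8, 13, 18], [11, 16, 18, 19]]

def cols : List (List ℕ) :=
  [[0, 1, 2, 1, 0, 0, 1, 2, 2, 2, 0, 1, 2, 0, 1, 1, 0, 2, 0, 1, 2], [0, 1, 2, 1, 0, 0, 1, 2, 2, 2, 0, 1, 2, 0, 1, 1, 2, 0, 2, 1, 0], [0, 1, 2, 1, 0, 0, 1, 2, 2, 2, 0, 1, 2, 1, 0, 1, 0, 2, 1, 0, 2], [0, 1, 2, 1, 0, 0, 1, 2, 2, 2, 1, 0, 2, 0, 1, 0, 1, 2, 0, 1, 2], [0, 1, 2, 1, 0, 0, 1, 2, 2, 2, 1, 0, 2, 1, 0, 0, 1, 2, 1, 0, 2], [0, 1, 2, 1, 0, 0, 1, 2, 2, 2, 1, 0, 2, 1, 0, 0, 2, 1, 2, 0, 1], [0, 1, 2, 1, 0, 0, 2, 1, 1, 2, 0, 2, 2, 0, 1, 1, 0, 2, 0,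 2, 1], [0, 1, 2, 1, 2, 0, 1, 2, 2, 0, 1, 0, 0, 1, 2, 2, 1, 0, 1, 0, 2], [0, 1, 2, 1, 2, 0, 2, 1, 1, 0, 2, 0, 0, 2, 1, 1, 2, 0, 2, 0, 1], [0, 2, 1, 2, 0, 0, 1, 2, 2, 1, 0, 1, 1, 0, 2, 2, 0, 1, 0, 1, 2], [0, 2, 1, 2, 0, 0, 2, 1, 1, 1, 0, 2, 1, 0, 2, 2, 0, 1, 0, 2, 1], [0, 2, 1, 2, 0, 0, 2, 1, 1, 1, 0, 2, 1, 0, 2, 2, 1, 0, 1, 2, 0], [0, 2, 1, 2, 0, 0, 2, 1, 1, 1, 0, 2, 1, 2, 0, 2, 0, 1, 2, 0, 1], [0, 2, 1, 2, 0, 0, 2, 1, 1, 1, 2, 0, 1, 0, 2, 0, 2, 1, 0, 2, 1], [0, 2, 1, 2, 0, 0, 2, 1, 1, 1, 2, 0, 1, 2, 0, 0, 1, 2, 1, 0, 2], [0, 2, 1, 2, 0, 0, 2, 1, 1, 1, 2, 0, 1, 2, 0, 0, 2, 1, 2, 0, 1], [0, 2, 1, 2, 1, 0, 1, 2, 2, 0, 1, 0, 0, 1, 2, 2, 1, 0, 1, 0, 2], [0, 2, 1, 2, 1, 0, 2, 1, 1, 0, 2, 0, 0, 2, 1, 1, 2, 0, 2, 0, 1], [1, 0, 2, 0, 1, 1, 0, 2, 2, 2, 0, 1, 2, 0, 1, 1, 0, 2, 0, 1, 2], [1, 0, 2, 0, 1, 1, 0, 2, 2, 2, 0, 1, 2, 0, 1, 1, 2, 0, 2, 1, 0], [1, 0, 2, 0, 1, 1, 0, 2,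 2, 2, 0, 1, 2, 1, 0, 1, 0, 2, 1, 0, 2], [1, 0, 2, 0, 1, 1, 0, 2, 2, 2, 1, 0, 2, 0, 1, 0, 1, 2, 0, 1, 2], [1, 0, 2, 0, 1, 1, 0, 2, 2, 2, 1, 0, 2, 1, 0, 0, 1, 2, 1, 0, 2], [1, 0, 2, 0, 1, 1, 0, 2, 2, 2, 1, 0, 2, 1, 0, 0, 2, 1, 2, 0, 1], [1, 0, 2, 0, 1, 1, 2, 0, 0, 2, 1, 2, 2, 1, 0, 0, 1, 2, 1, 2, 0], [1, 0, 2, 0, 2, 1, 0, 2, 2, 1, 0, 1, 1, 0, 2, 2, 0, 1, 0, 1, 2], [1, 0, 2, 0, 2, 1, 2, 0, 0, 1, 2, 1, 1, 2, 0, 0, 2, 1, 2, 1, 0], [1, 2, 0, 2, 0, 1, 0, 2, 2, 1, 0, 1, 1, 0, 2, 2, 0, 1, 0, 1, 2], [1, 2, 0, 2, 0, 1, 2, 0, 0, 1, 2, 1, 1, 2, 0, 0, 2, 1, 2, 1, 0], [1, 2, 0, 2, 1, 1, 0, 2, 2, 0, 1, 0, 0, 1, 2, 2, 1, 0, 1, 0, 2], [1, 2, 0, 2, 1, 1, 2, 0, 0, 0, 1, 2, 0, 1, 2, 2, 0, 1, 0, 2, 1], [1, 2, 0, 2, 1, 1, 2, 0, 0, 0, 1, 2, 0, 1, 2, 2, 1, 0, 1, 2, 0], [1, 2, 0, 2, 1, 1, 2, 0, 0, 0, 1, 2, 0, 2, 1, 2, 1, 0, 2, 1, 0], [1, 2, 0, 2, 1, 1, 2, 0, 0, 0, 2, 1, 0, 1, 2, 1, 2, 0, 1,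 2, 0], [1, 2, 0, 2, 1, 1, 2, 0, 0, 0, 2, 1, 0, 2, 1, 1, 0, 2, 0, 1, 2], [1, 2, 0, 2, 1, 1, 2, 0, 0, 0, 2, 1, 0, 2, 1, 1, 2, 0, 2, 1, 0], [2, 0, 1, 0, 1, 2, 0, 1, 1, 2, 0, 2, 2, 0, 1, 1, 0, 2, 0, 2, 1], [2, 0, 1, 0, 1, 2, 1, 0, 0, 2, 1, 2, 2, 1, 0, 0, 1, 2, 1, 2, 0], [2, 0, 1, 0, 2, 2, 0, 1, 1, 1, 0, 2, 1, 0, 2, 2, 0, 1, 0, 2, 1], [2, 0, 1, 0, 2, 2, 0, 1, 1, 1, 0, 2, 1, 0, 2, 2, 1, 0, 1, 2, 0], [2, 0, 1, 0, 2, 2, 0, 1, 1, 1, 0, 2, 1, 2, 0, 2, 0, 1, 2, 0, 1], [2, 0, 1, 0, 2, 2, 0, 1, 1, 1, 2, 0, 1, 0, 2, 0, 2, 1, 0, 2, 1], [2, 0, 1, 0, 2, 2, 0, 1, 1, 1, 2, 0, 1, 2, 0, 0, 1, 2, 1, 0, 2], [2, 0, 1, 0, 2, 2, 0, 1, 1, 1, 2, 0, 1, 2, 0, 0, 2, 1, 2, 0, 1], [2, 0, 1, 0, 2, 2, 1, 0, 0, 1, 2, 1, 1, 2, 0, 0, 2, 1, 2, 1, 0], [2, 1, 0, 1, 0, 2, 0, 1, 1, 2, 0, 2, 2, 0, 1, 1, 0, 2, 0, 2, 1], [2, 1, 0, 1, 0, 2, 1, 0, 0, 2, 1, 2, 2, 1, 0, 0, 1, 2, 1, 2, 0], [2, 1, 0, 1, 2, 2, 0, 1,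 1, 0, 2, 0, 0, 2, 1, 1, 2, 0, 2, 0, 1], [2, 1, 0, 1, 2, 2, 1, 0, 0, 0, 1, 2, 0, 1, 2, 2, 0, 1, 0, 2, 1], [2, 1, 0, 1, 2, 2, 1, 0, 0, 0, 1, 2, 0, 1, 2, 2, 1, 0, 1, 2, 0], [2, 1, 0, 1, 2, 2, 1, 0, 0, 0, 1, 2, 0, 2, 1, 2, 1, 0, 2, 1, 0], [2, 1, 0, 1, 2, 2, 1, 0, 0, 0, 2, 1, 0, 1, 2, 1, 2, 0, 1, 2, 0], [2, 1, 0, 1, 2, 2, 1, 0, 0, 0, 2, 1, 0, 2, 1, 1, 0, 2, 0, 1, 2], [2, 1, 0, 1, 2, 2, 1, 0, 0, 0, 2, 1, 0, 2, 1, 1, 2, 0, 2, 1, 0]]

def srch : ℕ → List ℕ → Bool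
  | 0, p => decide (p ∈ cols)
  | n + 1, p => [0, 1, 2].all fun x =>
      (con.getD p.length []).any (fun j => p.getD j 3 == x) || srch n (p ++ [x])

theorem srch_sound (c : ℕ → ℕ) (h3 : ∀ i, c i < 3)
    (hc : ∀ i < 21, ∀ j ∈ con.getD i [], j < i ∧ c j ≠ c i) (n k : ℕ) (hk : k + n = 21)
    (h : srch n ((List.range k).map c) = true) : (List.range 21).map c ∈ cols := by
  induction n generalizing k with
  | zero =>
    obtain rfl : k = 21 := by omega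
    simpa [srch] using h
  | succ n ih =>
    apply ih (k + 1) (by omega)
    simp only [srch, List.all_eq_true, Bool.or_eq_true, List.any_eq_true, List.length_map,
      List.length_range, beq_iff_eq] at h
    rcases h (c k) (by have := h3 k; simp; omega) with ⟨j, hj, e⟩ | h
    · obtain ⟨h1, h2⟩ := hc k (by omega) j hj
      simp [List.getD_eq_getElem?_getD, h1] at e
      exact absurd e h2
    · rwa [List.range_succ, List.map_append]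

theorem colouring_iff (c : Fin 21 → Fin 3) :
    IsColouring σ c ↔ ∀ d : Dart 21, c d.1 ≠ c (σ d).1 := by
  have h0 : ∀ d : Dart 21, d.1 ≠ (σ d).1 := by decide +kernel
  constructor
  · intro h d
    exact h d (σ d) ⟨1, by simp⟩ (h0 d)
  · intro h d e hde hne
    have h3 : σ ^ 3 = 1 := by
      ext1 x
      exact (plane.1 x).2
    obtain ⟨i, hi⟩ := hde
    rw [zpow_eq_zpow_emod' i h3] at hi
    have : i % (3 : ℕ) = 0 ∨ i % (3 : ℕ) = 1 ∨ i % (3 : ℕ) = 2 := by omega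
    rcases this with h4 | h4 | h4 <;> rw [h4] at hi
    · exact absurd (congrArg Prod.fst hi) hne
    · rw [← hi]; exact h d
    · have : σ e = d := by rw [← hi]; exact (plane.1 d).2
      rw [← this]; exact (h e).symm

def toL (c : Fin 21 → Fin 3) : List ℕ := (List.range 21).map fun i => (c (Fin.ofNat 21 i)).1
def ofL (l : List ℕ) : Fin 21 → Fin 3 := fun i => Fin.ofNat 3 (l.getD i.1 0)

theorem card_col : Nat.card {c : Fin 21 → Fin 3 // IsColouring σ c} = 54 := by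
  have h1 : ∀ c, IsColouring σ c → toL c ∈ cols.toFinset := by
    intro c hc
    rw [colouring_iff] at hc
    rw [List.mem_toFinset]
    refine srch_sound _ (fun i => (c _).2) ?_ 21 0 rfl (by show srch 21 [] = true; decide +kernel)
    have : ∀ i < 21, ∀ j ∈ con.getD i [], j < i ∧ ∃ d : Dart 21,
        (d.1 = Fin.ofNat 21 i ∧ (σ d).1 = Fin.ofNat 21 j) ∨
        (d.1 = Fin.ofNat 21 j ∧ (σ d).1 = Fin.ofNat 21 i) := by decide +kernel
    intro i hi j hj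
    obtain ⟨a1, d, a2⟩ := this i hi j hj
    refine ⟨a1, fun e => hc d ?_⟩
    rcases a2 with a2 | a2 <;> rw [a2.1, a2.2]
    · exact (Fin.ext e).symm
    · exact Fin.ext e
  have h2 : ∀ l ∈ cols, (∀ d : Dart 21, ofL l d.1 ≠ ofL l (σ d).1) ∧ toL (ofL l) = l := by
    decide +kernel
  rw [Nat.card_congr (Equiv.ofBijective
    (fun c : {c : Fin 21 → Fin 3 // IsColouring σ c} => (⟨toL c.1, h1 c.1 c.2⟩ : cols.toFinset))
    ⟨?_, ?_⟩), Nat.card_eq_fintype_card, Fintype.card_coe]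
  · decide +kernel
  · intro c c' e
    have e1 : toL c.1 = toL c'.1 := congrArg Subtype.val e
    apply Subtype.ext
    funext i
    have := List.map_inj_left.1 e1 i.1 (by simp)
    simpa [Fin.ext_iff] using this
  · rintro ⟨l, hl⟩
    have := h2 l (List.mem_toFinset.1 hl)
    exact ⟨⟨ofL l, (colouring_iff _).2 this.1⟩, Subtype.ext this.2⟩

/-- There is a connected plane cubic graph whose number of 3-edge-colourings does not divide the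
value of its Penrose polynomial at `-1`. -/
theorem result : ∃ (m : ℕ) (σ : Equiv.Perm (Dart m)), IsPlaneCubic σ ∧
    ¬ ((Nat.card {c : Fin m → Fin 3 // IsColouring σ c} : ℤ) ∣ penrose σ (-1)) := by
  refine ⟨21, σ, plane, ?_⟩
  rw [card_col, penrose_eq]
  decide

end Pool.Agent.Results.MP_daa8b9_co.NotDivisible
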